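import Mathlib

/-!
# Relations of length four between many independent vectors
-/

set_option autoImplicit false

namespace Pool.Agent.H60LR

open Module Finset

/-- Relations with at most four terms which involve all the elements of a subset. -/
theorem relations {W : Type*} [AddCommGroup W] [Module ℚ W] {P : Type*} [Fintype P] [DecidableEq P]
    (x : P → W) (S : Finset P) (c : P → (P → ℚ)) (hc : ∀ s ∈ S, ∑ p, c s p • x p = 0)
    (hs : ∀ s ∈ S, c s s ≠ 0) (h4 : ∀ s ∈ S, (univ.filter fun p => c s p ≠ 0).card ≤ 4) :
    S.card + 4 * finrank ℚ (Submodule.span ℚ (Set.range x)) ≤ 4 * Fintype.card P := by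
  classical
  let L : (P → ℚ) →ₗ[ℚ] W := Fintype.linearCombination ℚ x
  have hL : ∀ f, L f = ∑ p, f p • x p := fun f => Fintype.linearCombination_apply ℚ x f
  have hrange : LinearMap.range L = Submodule.span ℚ (Set.range x) := Fintype.range_linearCombination ℚ x
  have hrk := LinearMap.finrank_range_add_finrank_ker L
  rw [hrange, finrank_fintype_fun_eq_card] at hrk
  obtain ⟨b, hb1, hb2, hb3⟩ := exists_linearIndependent ℚ (c '' (S : Set P))
  have hfin : b.Finite := (S.finite_toSet.image c).subset hb1
  have := hfin.fintype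
  have hcard : finrank ℚ (Submodule.span ℚ b) = Fintype.card b := by
    have h := finrank_span_eq_card hb3
    rw [Subtype.range_coe] at h
    exact h
  have hle : Submodule.span ℚ b ≤ LinearMap.ker L := by
    rw [hb2, Submodule.span_le]
    rintro _ ⟨s, hs', rfl⟩
    rw [SetLike.mem_coe, LinearMap.mem_ker, hL]
    exact hc s hs'
  have h1 := Submodule.finrank_mono hle
  rw [hcard] at h1
  have hS : S ⊆ b.toFinset.biUnion fun f => univ.filter fun p => f p ≠ 0 := by
    intro s hs'
    by_contra hcon
    have hz : ∀ f ∈ Submodule.span ℚ b, f s = 0 := by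
      intro f hf
      induction hf using Submodule.span_induction with
      | mem f hf =>
        by_contra h0
        apply hcon
        rw [mem_biUnion]
        exact ⟨f, Set.mem_toFinset.2 hf, mem_filter.2 ⟨mem_univ _, h0⟩⟩
      | zero => rfl
      | add f g _ _ hf hg => rw [Pi.add_apply, hf, hg, add_zero]
      | smul a f _ hf => rw [Pi.smul_apply, hf, smul_zero]
    refine hs s hs' (hz _ ?_)
    rw [hb2]
    exact Submodule.subset_span ⟨s, hs', rfl⟩
  have h2 : S.card ≤ 4 * b.toFinset.card := by
    refine (card_le_card hS).trans ?_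
    refine card_biUnion_le.trans ?_
    have h5 : ∑ f ∈ b.toFinset, (univ.filter fun p => f p ≠ 0).card ≤ ∑ f ∈ b.toFinset, 4 := by
      refine sum_le_sum fun f hf => ?_
      obtain ⟨s, hs', rfl⟩ := hb1 (Set.mem_toFinset.1 hf)
      exact h4 s hs'
    rw [sum_const, smul_eq_mul, mul_comm] at h5
    exact h5
  rw [Set.toFinset_card] at h2
  omega

/-- If the vectors `w j` are closed under `w ↦ - w` (with multiplicities) and span a space of more than `3/8` of the
largest possible dimension then one of them is isolated. -/
theorem comb {W : Type*} [AddCommGroup W] [Module ℚ W] {J : Type*} [Fintype J] (w : J → W) (σ : Equiv.Perm J)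
    (hσ : ∀ j, w (σ j) = -w j)
    (h : 3 * Fintype.card J < 8 * finrank ℚ (Submodule.span ℚ (Set.range w))) :
    ∃ j0, (∀ j, w j = w j0 → j = j0) ∧
      ∀ j1 j2 j3, w j0 + w j1 = w j2 + w j3 → w j2 = w j0 ∨ w j3 = w j0 ∨ w j1 = -w j0 := by
  classical
  by_contra hcon
  push Not at hcon
  let X : Finset W := (univ.image w).filter fun x => x ≠ 0
  have hX : ∀ x, x ∈ X ↔ (∃ j, w j = x) ∧ x ≠ 0 := by
    intro x
    simp [X]
  have hneg : ∀ x ∈ X, -x ∈ X := by
    intro x hx
    obtain ⟨⟨j, hj⟩, h0⟩ := (hX x).1 hx
    exact (hX _).2 ⟨⟨σ j, by rw [hσ, hj]⟩, neg_ne_zero.2 h0⟩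
  have hne : ∀ x ∈ X, x ≠ -x := by
    intro x hx h1
    apply ((hX x).1 hx).2
    have h2 : (2 : ℚ) • x = 0 := by
      rw [two_smul]
      nth_rewrite 2 [h1]
      exact add_neg_cancel x
    exact (smul_eq_zero.1 h2).resolve_left two_ne_zero
  obtain ⟨f, hf⟩ : ∃ f : W → ℕ, Set.InjOn f X := by
    refine ⟨fun x => if hx : x ∈ X then (X.equivFin ⟨x, hx⟩ : ℕ) else 0, ?_⟩
    intro x hx y hy hxy
    have hx' : x ∈ X := hx
    have hy' : y ∈ X := hy
    simp only [dif_pos hx', dif_pos hy'] at hxy
    have := X.equivFin.injective (Fin.ext hxy)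
    exact congrArg Subtype.val this
  let P : Finset W := X.filter fun x => f x < f (-x)
  have hPX : ∀ x ∈ P, x ∈ X := fun x hx => (mem_filter.1 hx).1
  have hP : ∀ x ∈ P, -x ∉ P := by
    intro x hx hx'
    have h1 := (mem_filter.1 hx).2
    have h2 := (mem_filter.1 hx').2
    rw [neg_neg] at h2
    exact lt_asymm h1 h2
  have hXP : ∀ x ∈ X, x ∈ P ∨ -x ∈ P := by
    intro x hx
    rcases lt_trichotomy (f x) (f (-x)) with h1 | h1 | h1
    · exact Or.inl (mem_filter.2 ⟨hx, h1⟩)
    · exact absurd (hf hx (hneg x hx) h1) (hne x hx)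
    · exact Or.inr (mem_filter.2 ⟨hneg x hx, by rw [neg_neg]; exact h1⟩)
  let coord : W → P → ℚ := fun y p => if y = p then 1 else if y = -(p : W) then -1 else 0
  have hsum : ∀ j, ∑ p : P, coord (w j) p • (p : W) = w j := by
    intro j
    by_cases h0 : w j = 0
    · rw [h0]
      refine sum_eq_zero fun p _ => ?_
      have h1 : (p : W) ≠ 0 := ((hX _).1 (hPX _ p.2)).2
      have h2 : (0 : W) ≠ -(p : W) := fun h => h1 (neg_eq_zero.1 h.symm)
      simp only [coord]
      rw [if_neg (Ne.symm h1), if_neg h2, zero_smul]
    · have hj : w j ∈ X := (hX _).2 ⟨⟨j, rfl⟩, h0⟩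
      rcases hXP _ hj with h1 | h1
      · rw [sum_eq_single_of_mem ⟨w j, h1⟩ (mem_univ _)]
        · simp [coord]
        · intro p _ hp
          have h2 : w j ≠ p := fun h => hp (Subtype.ext h.symm)
          have h3 : w j ≠ -(p : W) := fun h => hP _ p.2 (by rw [← h]; exact h1)
          simp only [coord]
          rw [if_neg h2, if_neg h3, zero_smul]
      · rw [sum_eq_single_of_mem ⟨-w j, h1⟩ (mem_univ _)]
        · have h2 : w j ≠ -w j := hne _ hj
          have h3 : w j = -(-w j) := (neg_neg _).symm
          change (if w j = -w j then (1 : ℚ) else if w j = -(-w j) then -1 else 0) • (-w j) = w j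
          rw [if_neg h2, if_pos h3, neg_one_smul, neg_neg]
        · intro p _ hp
          have h2 : w j ≠ -(p : W) := fun h => hp (Subtype.ext (by
            change (p : W) = -w j
            rw [h, neg_neg]))
          have h3 : w j ≠ p := by
            intro h
            apply hP _ p.2
            have h4 : -w j = -(p : W) := by rw [h]
            rw [← h4]
            exact h1
          simp only [coord]
          rw [if_neg h3, if_neg h2, zero_smul]
  have hsupp : ∀ y, (univ.filter fun p : P => coord y p ≠ 0).card ≤ 1 := by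
    intro y
    rw [card_le_one]
    intro a ha b hb
    have key : ∀ p : P, coord y p ≠ 0 → y = p ∨ y = -(p : W) := by
      intro p hp
      by_contra h
      push Not at h
      apply hp
      simp only [coord]
      rw [if_neg h.1, if_neg h.2]
    rcases key a (mem_filter.1 ha).2 with h1 | h1 <;> rcases key b (mem_filter.1 hb).2 with h2 | h2
    · exact Subtype.ext (h1.symm.trans h2)
    · exact absurd (by rw [← h2, h1]; exact a.2 : -(b : W) ∈ P) (hP _ b.2)
    · exact absurd (by rw [← h1, h2]; exact b.2 : -(a : W) ∈ P) (hP _ a.2)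
    · exact Subtype.ext (neg_injective (h1.symm.trans h2))
  let S : Finset P := univ.filter fun p => (univ.filter fun j => w j = (p : W)).card = 1
  have hex : ∀ s ∈ S, ∃ c : P → ℚ, (∑ p, c p • (p : W) = 0) ∧ c s ≠ 0 ∧
      (univ.filter fun p => c p ≠ 0).card ≤ 4 := by
    intro s hs
    obtain ⟨j0, hj0⟩ := card_eq_one.1 (mem_filter.1 hs).2
    have h0 : w j0 = s := by
      have : j0 ∈ univ.filter fun j => w j = (s : W) := by rw [hj0]; exact mem_singleton_self _
      exact (mem_filter.1 this).2
    obtain ⟨j1, j2, j3, hr, h2, h3, h1⟩ := hcon j0 (fun j hj => by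
      have : j ∈ univ.filter fun j => w j = (s : W) := mem_filter.2 ⟨mem_univ _, by rw [hj, h0]⟩
      rw [hj0] at this
      exact mem_singleton.1 this)
    refine ⟨coord (w j0) + coord (w j1) - coord (w j2) - coord (w j3), ?_, ?_, ?_⟩
    · have h4 : ∑ p : P, (coord (w j0) + coord (w j1) - coord (w j2) - coord (w j3)) p • (p : W) =
          w j0 + w j1 - w j2 - w j3 := by
        rw [← hsum j0, ← hsum j1, ← hsum j2, ← hsum j3, ← sum_add_distrib, ← sum_sub_distrib,
          ← sum_sub_distrib]
        refine sum_congr rfl fun p _ => ?_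
        simp only [Pi.add_apply, Pi.sub_apply, add_smul, sub_smul, hsum]
      rw [h4, hr]
      abel
    · have e0 : coord (w j0) s = 1 := if_pos h0
      have e1 : 0 ≤ coord (w j1) s := by
        simp only [coord]
        rw [h0] at h1
        split_ifs <;> simp_all
      have e2 : coord (w j2) s ≤ 0 := by
        simp only [coord]
        rw [h0] at h2
        rw [if_neg h2]
        split_ifs <;> norm_num
      have e3 : coord (w j3) s ≤ 0 := by
        simp only [coord]
        rw [h0] at h3
        rw [if_neg h3]
        split_ifs <;> norm_num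
      intro h5
      simp only [Pi.add_apply, Pi.sub_apply] at h5
      linarith
    · have h6 : (univ.filter fun p : P => (coord (w j0) + coord (w j1) - coord (w j2) - coord (w j3)) p ≠ 0) ⊆
          (((univ.filter fun p : P => coord (w j0) p ≠ 0) ∪ (univ.filter fun p : P => coord (w j1) p ≠ 0)) ∪
          (univ.filter fun p : P => coord (w j2) p ≠ 0)) ∪ (univ.filter fun p : P => coord (w j3) p ≠ 0) := by
        intro p hp
        have hp' := (mem_filter.1 hp).2
        by_contra hcon'
        simp only [mem_union, mem_filter, mem_univ, true_and, not_or, not_not] at hcon'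
        apply hp'
        simp only [Pi.add_apply, Pi.sub_apply, hcon'.1.1.1, hcon'.1.1.2, hcon'.1.2, hcon'.2]
        norm_num
      refine (card_le_card h6).trans ?_
      refine (card_union_le _ _).trans ?_
      have a1 := card_union_le ((univ.filter fun p : P => coord (w j0) p ≠ 0) ∪
        (univ.filter fun p : P => coord (w j1) p ≠ 0)) (univ.filter fun p : P => coord (w j2) p ≠ 0)
      have a2 := card_union_le (univ.filter fun p : P => coord (w j0) p ≠ 0)
        (univ.filter fun p : P => coord (w j1) p ≠ 0)
      have b0 := hsupp (w j0)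
      have b1 := hsupp (w j1)
      have b2 := hsupp (w j2)
      have b3 := hsupp (w j3)
      omega
  choose! c hc1 hc2 hc3 using hex
  have hrel := relations (fun p : P => (p : W)) S c hc1 hc2 hc3
  have hspan : finrank ℚ (Submodule.span ℚ (Set.range w)) ≤
      finrank ℚ (Submodule.span ℚ (Set.range fun p : P => (p : W))) := by
    have := FiniteDimensional.span_of_finite ℚ (Set.finite_range fun p : P => (p : W))
    refine Submodule.finrank_mono ?_
    rw [Submodule.span_le]
    rintro _ ⟨j, rfl⟩
    rw [SetLike.mem_coe, ← hsum j]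
    exact Submodule.sum_mem _ fun p _ => Submodule.smul_mem _ _ (Submodule.subset_span ⟨p, rfl⟩)
  have hfib : ∀ p : P, (univ.filter fun j => w j = -(p : W)).card = (univ.filter fun j => w j = (p : W)).card := by
    intro p
    symm
    refine card_bij (fun j _ => σ j) ?_ ?_ ?_
    · intro j hj
      rw [mem_filter] at hj ⊢
      exact ⟨mem_univ _, by rw [hσ, hj.2]⟩
    · intro a _ b _ hab
      exact σ.injective hab
    · intro j hj
      rw [mem_filter] at hj
      refine ⟨σ.symm j, mem_filter.2 ⟨mem_univ _, ?_⟩, σ.apply_symm_apply j⟩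
      have h5 := hσ (σ.symm j)
      rw [σ.apply_symm_apply, hj.2] at h5
      exact (neg_injective h5).symm
  have hdis : ∀ p : P, (univ.filter fun j => w j = (p : W) ∨ w j = -(p : W)).card =
      2 * (univ.filter fun j => w j = (p : W)).card := by
    intro p
    rw [filter_or, card_union_of_disjoint, hfib, two_mul]
    rw [disjoint_filter]
    intro j _ h5 h6
    exact hne _ (hPX _ p.2) (h5.symm.trans h6)
  have hJ : ∑ p : P, 2 * (univ.filter fun j => w j = (p : W)).card ≤ Fintype.card J := by
    rw [← sum_congr rfl fun p _ => hdis p, ← card_biUnion]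
    · exact card_le_univ _
    · intro a _ b _ hab
      rw [Function.onFun, disjoint_filter]
      rintro j _ (h5 | h5) (h6 | h6)
      · exact hab (Subtype.ext (h5.symm.trans h6))
      · exact hP _ b.2 (by rw [← h6, h5]; exact a.2)
      · exact hP _ a.2 (by rw [← h5, h6]; exact b.2)
      · exact hab (Subtype.ext (neg_injective (h5.symm.trans h6)))
  have hcount : 4 * Fintype.card P ≤ (∑ p : P, 2 * (univ.filter fun j => w j = (p : W)).card) + 2 * S.card := by
    have h5 : ∀ p : P, 4 ≤ 2 * (univ.filter fun j => w j = (p : W)).card + (if p ∈ S then 2 else 0) := by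
      intro p
      have h6 : 0 < (univ.filter fun j => w j = (p : W)).card := by
        obtain ⟨⟨j, hj⟩, -⟩ := (hX _).1 (hPX _ p.2)
        exact card_pos.2 ⟨j, mem_filter.2 ⟨mem_univ _, hj⟩⟩
      split_ifs with h7
      · omega
      · have h8 : (univ.filter fun j => w j = (p : W)).card ≠ 1 := fun h => h7 (mem_filter.2 ⟨mem_univ _, h⟩)
        omega
    have h6 := sum_le_sum fun p (_ : p ∈ (univ : Finset P)) => h5 p
    rw [sum_const, card_univ, smul_eq_mul, sum_add_distrib, sum_ite_mem, univ_inter, sum_const,
      smul_eq_mul] at h6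
    omega
  have hSP : S.card ≤ Fintype.card P := card_le_univ S
  omega

end Pool.Agent.H60LR
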