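import Mathlib

/-!
# The vector space of the elements of a commutative group modulo a subgroup
-/

set_option autoImplicit false

namespace Pool.Agent.H60LR

open Module Finset TensorProduct

variable {A : Type} [CommGroup A]

/-- the vector space -/
abbrev VS (H : Subgroup A) : Type := ℚ ⊗[ℤ] Additive (A ⧸ H)

/-- the vector of an element -/
noncomputable def vec (H : Subgroup A) (x : A) : VS H :=
  (1 : ℚ) ⊗ₜ[ℤ] Additive.ofMul (QuotientGroup.mk x : A ⧸ H)

theorem vec_mul (H : Subgroup A) (x y : A) : vec H (x * y) = vec H x + vec H y := by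
  unfold vec
  rw [← TensorProduct.tmul_add]
  rfl

theorem vec_one (H : Subgroup A) : vec H (1 : A) = 0 := by
  have h := vec_mul H (1 : A) 1
  rw [mul_one] at h
  exact left_eq_add.1 h

theorem vec_inv (H : Subgroup A) (x : A) : vec H x⁻¹ = -vec H x := by
  have h := vec_mul H x⁻¹ x
  rw [inv_mul_cancel, vec_one] at h
  exact eq_neg_of_add_eq_zero_left h.symm

theorem vec_pow (H : Subgroup A) (x : A) (n : ℕ) : vec H (x ^ n) = (n : ℚ) • vec H x := by
  induction n with
  | zero => rw [pow_zero, vec_one, Nat.cast_zero, zero_smul]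
  | succ n ih => rw [pow_succ, vec_mul, ih, Nat.cast_succ, add_smul, one_smul]

theorem vec_zpow (H : Subgroup A) (x : A) (n : ℤ) : vec H (x ^ n) = n • vec H x := by
  obtain ⟨m, rfl | rfl⟩ := n.eq_nat_or_neg
  · rw [zpow_natCast, vec_pow, natCast_zsmul, Nat.cast_smul_eq_nsmul]
  · rw [zpow_neg, vec_inv, zpow_natCast, vec_pow, neg_smul, natCast_zsmul, Nat.cast_smul_eq_nsmul]

theorem vec_prod {r : ℕ} (H : Subgroup A) (z : Fin r → A) :
    vec H (∏ j, z j) = ∑ j, vec H (z j) := by
  have key : ∀ s : Finset (Fin r), vec H (∏ j ∈ s, z j) = ∑ j ∈ s, vec H (z j) := by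
    classical
    intro s
    induction s using Finset.induction_on with
    | empty => rw [prod_empty, sum_empty, vec_one]
    | insert a s ha ih => rw [prod_insert ha, sum_insert ha, vec_mul, ih]
  exact key univ

theorem vec_eq_zero {H : Subgroup A} {x : A} (h : vec H x = 0) : ∃ n : ℕ, 0 < n ∧ x ^ n ∈ H := by
  have hloc : IsLocalizedModule (nonZeroDivisors ℤ) (TensorProduct.mk ℤ ℚ (Additive (A ⧸ H)) 1) :=
    (isLocalizedModule_iff_isBaseChange (nonZeroDivisors ℤ) ℚ _).2 (TensorProduct.isBaseChange ℤ _ ℚ)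
  have h1 : TensorProduct.mk ℤ ℚ (Additive (A ⧸ H)) 1 (Additive.ofMul (QuotientGroup.mk x : A ⧸ H)) = 0 := h
  rw [IsLocalizedModule.eq_zero_iff (nonZeroDivisors ℤ)] at h1
  obtain ⟨⟨c, hc⟩, h2⟩ := h1
  have hc0 : c ≠ 0 := nonZeroDivisors.ne_zero hc
  have h3 : c • Additive.ofMul (QuotientGroup.mk x : A ⧸ H) = 0 := h2
  rw [← ofMul_zpow, ← QuotientGroup.mk_zpow] at h3
  have h4 : (QuotientGroup.mk (x ^ c) : A ⧸ H) = 1 := h3
  rw [QuotientGroup.eq_one_iff] at h4
  refine ⟨c.natAbs, Int.natAbs_pos.2 hc0, ?_⟩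
  rcases Int.natAbs_eq c with h5 | h5
  · rw [h5, zpow_natCast] at h4
    exact h4
  · rw [h5, zpow_neg, zpow_natCast] at h4
    exact inv_mem_iff.1 h4

theorem vec_of_mem {H : Subgroup A} {x : A} {n : ℕ} (hn : 0 < n) (h : x ^ n ∈ H) : vec H x = 0 := by
  have h1 : vec H (x ^ n) = 0 := by
    unfold vec
    rw [(QuotientGroup.eq_one_iff (x ^ n)).2 h, ofMul_one, TensorProduct.tmul_zero]
  rw [vec_pow] at h1
  exact (smul_eq_zero.1 h1).resolve_left (Nat.cast_ne_zero.2 hn.ne')

/-- Elements which are multiplicatively independent modulo `H` have linearly independent vectors. -/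
theorem vec_independent {H : Subgroup A} {r : ℕ} {z : Fin r → A}
    (hz : ∀ e : Fin r → ℤ, ∏ j, z j ^ e j ∈ H → e = 0) : LinearIndependent ℚ fun j => vec H (z j) := by
  rw [← LinearIndependent.iff_fractionRing ℤ ℚ, Fintype.linearIndependent_iff]
  intro g hg
  have h1 : vec H (∏ j, z j ^ g j) = 0 := by
    rw [vec_prod, ← hg]
    exact sum_congr rfl fun j _ => vec_zpow H _ _
  obtain ⟨n, hn, h2⟩ := vec_eq_zero h1
  rw [← prod_pow] at h2
  have h3 := hz (fun j => g j * n) (by
    convert h2 using 2 with j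
    rw [zpow_mul, zpow_natCast])
  intro j
  have h4 := congrFun h3 j
  simp only [Pi.zero_apply, mul_eq_zero, Nat.cast_eq_zero] at h4
  exact h4.resolve_right hn.ne'

end Pool.Agent.H60LR
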