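import Mathlib
import Pool.Agent.H60LR.Comb
import Pool.Agent.H60LR.Vec

/-!
# Isolated eigenvalues from the rank of the group generated by the eigenvalues
-/

set_option autoImplicit false

namespace Pool.Agent.H60LR

open Module Finset

section gen

variable {K : Type} [Field K] {T : Type} [AddCommGroup T] [Module K T]

theorem mem_gen {f : End K T} {α : K} {x : T} :
    x ∈ f.maxGenEigenspace α ↔ ∃ n : ℕ, ((f - algebraMap K (End K T) α) ^ n) x = 0 := by
  rw [Module.End.mem_maxGenEigenspace]
  rfl

theorem ortho {f : End K T} {B : T →ₗ[K] T →ₗ[K] K} {m : K} (hB : ∀ x y, B (f x) (f y) = m * B x y)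
    {β γ : K} (hne : β * γ ≠ m) : ∀ (n k l : ℕ) (x y : T), k + l ≤ n →
    ((f - algebraMap K (End K T) β) ^ k) x = 0 → ((f - algebraMap K (End K T) γ) ^ l) y = 0 →
    B x y = 0 := by
  intro n
  induction n with
  | zero =>
    intro k l x y hkl hx _
    have hk : k = 0 := by omega
    rw [hk, pow_zero, Module.End.one_apply] at hx
    rw [hx, map_zero, LinearMap.zero_apply]
  | succ n ih =>
    intro k l x y hkl hx hy
    rcases Nat.eq_zero_or_pos k with hk | hk
    · rw [hk, pow_zero, Module.End.one_apply] at hx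
      rw [hx, map_zero, LinearMap.zero_apply]
    rcases Nat.eq_zero_or_pos l with hl | hl
    · rw [hl, pow_zero, Module.End.one_apply] at hy
      rw [hy, map_zero]
    obtain ⟨k', rfl⟩ : ∃ k', k = k' + 1 := ⟨k - 1, by omega⟩
    obtain ⟨l', rfl⟩ : ∃ l', l = l' + 1 := ⟨l - 1, by omega⟩
    set x' := (f - algebraMap K (End K T) β) x with hx'
    set y' := (f - algebraMap K (End K T) γ) y with hy'
    have ex : f x = β • x + x' := by
      rw [hx', LinearMap.sub_apply, Module.algebraMap_end_apply, add_sub_cancel]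
    have ey : f y = γ • y + y' := by
      rw [hy', LinearMap.sub_apply, Module.algebraMap_end_apply, add_sub_cancel]
    have hx1 : ((f - algebraMap K (End K T) β) ^ k') x' = 0 := by
      rw [hx', ← Module.End.mul_apply, ← pow_succ]
      exact hx
    have hy1 : ((f - algebraMap K (End K T) γ) ^ l') y' = 0 := by
      rw [hy', ← Module.End.mul_apply, ← pow_succ]
      exact hy
    have h1 := ih (k' + 1) l' x y' (by omega) hx hy1
    have h2 := ih k' (l' + 1) x' y (by omega) hx1 hy
    have h3 := ih k' l' x' y' (by omega) hx1 hy1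
    have h4 := hB x y
    rw [ex, ey] at h4
    simp only [map_add, map_smul, LinearMap.add_apply, LinearMap.smul_apply, smul_eq_mul, h1, h2, h3] at h4
    have h5 : (β * γ - m) * B x y = 0 := by linear_combination h4
    exact (mul_eq_zero.1 h5).resolve_left (sub_ne_zero.2 hne)

variable [IsAlgClosed K]

open scoped Classical in
theorem gen_internal [FiniteDimensional K T] (f : End K T) :
    DirectSum.IsInternal fun β : K => f.maxGenEigenspace β :=
  DirectSum.isInternal_submodule_of_iSupIndep_of_iSup_eq_top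
    (Module.End.independent_maxGenEigenspace f) (Module.End.iSup_maxGenEigenspace_eq_top f)

theorem exists_op [FiniteDimensional K T] (f : End K T) (t : K → K) :
    ∃ Y : End K T, ∀ β, ∀ x ∈ f.maxGenEigenspace β, Y x = t β • x := by
  classical
  let e := LinearEquiv.ofBijective (DirectSum.coeLinearMap fun β : K => f.maxGenEigenspace β)
    (gen_internal f)
  let D : (DirectSum K fun β => f.maxGenEigenspace β) →ₗ[K] T :=
    DirectSum.toModule K K T fun β => t β • (f.maxGenEigenspace β).subtype
  refine ⟨D ∘ₗ e.symm.toLinearMap, fun β x hx => ?_⟩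
  have h1 : e.symm x = DirectSum.lof K K (fun β => f.maxGenEigenspace β) β ⟨x, hx⟩ := by
    rw [LinearEquiv.symm_apply_eq]
    change x = DirectSum.coeLinearMap (fun β : K => f.maxGenEigenspace β) _
    rw [DirectSum.coeLinearMap_lof]
  rw [LinearMap.comp_apply, LinearEquiv.coe_coe, h1, DirectSum.toModule_lof, LinearMap.smul_apply]
  rfl

theorem exists_basis [FiniteDimensional K T] (f : End K T) :
    ∃ (J : Type) (_ : Fintype J) (b : Basis J K T) (β : J → K), ∀ i, b i ∈ f.maxGenEigenspace (β i) := by
  classical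
  let b := (gen_internal f).collectedBasis fun β => Module.finBasis K (f.maxGenEigenspace β)
  exact ⟨_, FiniteDimensional.fintypeBasisIndex b, b, fun i => i.1,
    fun i => (gen_internal f).collectedBasis_mem _ i⟩

/-- The components of an element of a generalized eigenspace. -/
theorem coord_zero [FiniteDimensional K T] {f : End K T} {J : Type} [Fintype J] {b : Basis J K T} {β : J → K}
    (hb : ∀ i, b i ∈ f.maxGenEigenspace (β i)) {γ : K} {x : T} (hx : x ∈ f.maxGenEigenspace γ) {j : J}
    (hj : β j ≠ γ) : b.repr x j = 0 := by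
  classical
  obtain ⟨Y, hY⟩ := exists_op f fun α => if α = γ then 1 else 0
  have h1 : Y x = x := by rw [hY γ x hx, if_pos rfl, one_smul]
  have h2 : Y x = ∑ i, (b.repr x i * if β i = γ then 1 else 0) • b i := by
    conv_lhs => rw [← b.sum_repr x]
    rw [map_sum]
    refine sum_congr rfl fun i _ => ?_
    rw [map_smul, hY _ _ (hb i), smul_smul]
  rw [h1] at h2
  have h3 : b.repr x j = b.repr x j * if β j = γ then 1 else 0 := by
    conv_lhs => rw [h2]
    rw [b.repr_sum_self]
  rw [if_neg hj, mul_zero] at h3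
  exact h3

end gen

section iso

variable {K : Type} [Field K] {T : Type} [AddCommGroup T] [Module K T]

/-- equality up to a root of unity -/
def RE (a b : K) : Prop := ∃ n : ℕ, 0 < n ∧ a ^ n = b ^ n

/-- an eigenvalue -/
def EG (f : End K T) (β : K) : Prop := ∃ x, x ≠ 0 ∧ f x = β • x

variable [CharZero K] [IsAlgClosed K] [FiniteDimensional K T]

theorem isolated {f : End K T} (hf : Function.Injective f) {B : T →ₗ[K] T →ₗ[K] K}
    (hnd : ∀ x, (∀ y, B x y = 0) → x = 0) {H : Subgroup Kˣ} {m : Kˣ} (hm : m ∈ H)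
    (hB : ∀ x y, B (f x) (f y) = (m : K) * B x y) {r : ℕ} {z : Fin r → Kˣ}
    (hz : ∀ j, EG f (z j : K)) (hind : ∀ e : Fin r → ℤ, ∏ j, z j ^ e j ∈ H → e = 0)
    (hr : 3 * finrank K T < 8 * r) : ∃ (a : K) (v : T), v ≠ 0 ∧ f v = a • v ∧
      (∀ β, RE β a → ∀ x ∈ f.maxGenEigenspace β, ∃ c : K, x = c • v) ∧
      (∀ β γ δ, EG f β → EG f γ → EG f δ → RE (a * δ) (β * γ) → RE β a ∨ RE γ a ∨ RE (a * δ) m) ∧
      ∀ β, EG f β → ∀ n : ℕ, 0 < n → ∀ u ∈ H, β ^ n = u * a ^ n → RE β a := by
  classical
  obtain ⟨J, _, b, β, hb⟩ := exists_basis f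
  have hcard : finrank K T = Fintype.card J := Module.finrank_eq_card_basis b
  -- the eigenvalues are not zero
  have hβ0 : ∀ j, β j ≠ 0 := by
    intro j h0
    obtain ⟨n, hn⟩ := mem_gen.1 (hb j)
    rw [h0, map_zero, sub_zero] at hn
    have h2 : ∀ n : ℕ, Function.Injective (f ^ n) := by
      intro n
      induction n with
      | zero => exact fun x y h => h
      | succ n ih =>
        intro x y hxy
        rw [pow_succ, Module.End.mul_apply, Module.End.mul_apply] at hxy
        exact hf (ih hxy)
    exact b.ne_zero j (h2 n (by rw [hn, map_zero]))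
  let u : J → Kˣ := fun j => Units.mk0 (β j) (hβ0 j)
  have hgen : ∀ {γ : K} {x : T}, x ≠ 0 → x ∈ f.maxGenEigenspace γ → ∃ j, β j = γ := by
    intro γ x hx0 hx
    by_contra hcon
    push Not at hcon
    apply hx0
    rw [← b.sum_repr x]
    exact sum_eq_zero fun j _ => by rw [coord_zero hb hx (hcon j), zero_smul]
  have heig : ∀ {γ : K}, EG f γ → ∃ j, β j = γ := by
    rintro γ ⟨x, hx0, hx⟩
    refine hgen hx0 (mem_gen.2 ⟨1, ?_⟩)
    rw [pow_one, LinearMap.sub_apply, Module.algebraMap_end_apply, hx, sub_self]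
  -- the permutation
  obtain ⟨σ, hσ⟩ : ∃ σ : Equiv.Perm J, ∀ j, β (σ j) * β j = m := by
    let Q : Matrix J J K := Matrix.of fun i j => B (b i) (b j)
    have hdet : Q.det ≠ 0 := by
      intro h0
      obtain ⟨v, hv, hv0⟩ := Matrix.exists_vecMul_eq_zero_iff.2 h0
      apply hv
      have h4 : (∑ i, v i • b i) = 0 := by
        refine hnd _ fun y => ?_
        have h5 : ∀ j, B (∑ i, v i • b i) (b j) = 0 := by
          intro j
          have h6 := congrFun hv0 j
          rw [Matrix.vecMul, dotProduct] at h6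
          rw [map_sum, LinearMap.sum_apply]
          simp only [map_smul, LinearMap.smul_apply, smul_eq_mul]
          exact h6
        rw [← b.sum_repr y, map_sum]
        exact sum_eq_zero fun j _ => by rw [map_smul, h5, smul_zero]
      funext i
      exact Fintype.linearIndependent_iff.1 b.linearIndependent v h4 i
    rw [Matrix.det_apply] at hdet
    obtain ⟨σ, -, hσ⟩ := exists_ne_zero_of_sum_ne_zero hdet
    refine ⟨σ, fun j => ?_⟩
    by_contra hcon
    apply hσ
    rw [prod_eq_zero (mem_univ j), smul_zero]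
    obtain ⟨k, hk⟩ := mem_gen.1 (hb (σ j))
    obtain ⟨l, hl⟩ := mem_gen.1 (hb j)
    exact ortho hB hcon (k + l) k l _ _ le_rfl hk hl
  have hmv : vec H m = 0 := vec_of_mem (n := 1) one_pos (by rw [pow_one]; exact hm)
  have hσv : ∀ j, vec H (u (σ j)) = -vec H (u j) := by
    intro j
    have h1 : u (σ j) * u j = m := Units.ext (hσ j)
    have h2 := vec_mul H (u (σ j)) (u j)
    rw [h1, hmv] at h2
    exact eq_neg_of_add_eq_zero_left h2.symm
  -- the rank
  have hrank : r ≤ finrank ℚ (Submodule.span ℚ (Set.range fun j => vec H (u j))) := by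
    have h1 := finrank_span_eq_card (vec_independent hind)
    rw [Fintype.card_fin] at h1
    rw [← h1]
    have := FiniteDimensional.span_of_finite ℚ (Set.finite_range fun j => vec H (u j))
    refine Submodule.finrank_mono ?_
    rw [Submodule.span_le]
    rintro _ ⟨i, rfl⟩
    obtain ⟨j, hj⟩ := heig (hz i)
    have h2 : z i = u j := Units.ext hj.symm
    refine Submodule.subset_span ⟨j, ?_⟩
    change vec H (u j) = vec H (z i)
    rw [h2]
  obtain ⟨j0, hj0, hrel⟩ := comb (fun j => vec H (u j)) σ hσv (by rw [← hcard]; omega)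
  -- roots of unity
  have hRE : ∀ {x y : Kˣ}, RE (x : K) (y : K) → vec H x = vec H y := by
    rintro x y ⟨n, hn, h⟩
    have h1 : x ^ n = y ^ n := Units.ext (by rw [Units.val_pow_eq_pow_val, Units.val_pow_eq_pow_val, h])
    have h2 := vec_pow H x n
    rw [h1, vec_pow] at h2
    exact (smul_right_injective _ (Nat.cast_ne_zero.2 hn.ne' : (n : ℚ) ≠ 0) h2).symm
  have hrefl : ∀ x : K, RE x x := fun x => ⟨1, one_pos, rfl⟩
  have hgen0 : ∀ x ∈ f.maxGenEigenspace (β j0), ∃ c : K, x = c • b j0 := by
    intro x hx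
    refine ⟨b.repr x j0, ?_⟩
    conv_lhs => rw [← b.sum_repr x]
    refine sum_eq_single_of_mem j0 (mem_univ _) fun j _ hj => ?_
    rw [coord_zero hb hx, zero_smul]
    intro h
    exact hj (hj0 j (by
      have : u j = u j0 := Units.ext h
      change vec H (u j) = vec H (u j0)
      rw [this]))
  refine ⟨β j0, b j0, b.ne_zero j0, ?_, ?_, ?_, ?_⟩
  · -- an eigenvector
    have h1 : (f - algebraMap K (End K T) (β j0)) (b j0) ∈ f.maxGenEigenspace (β j0) := by
      obtain ⟨n, hn⟩ := mem_gen.1 (hb j0)
      refine mem_gen.2 ⟨n, ?_⟩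
      rw [← Module.End.mul_apply, ← pow_succ, pow_succ', Module.End.mul_apply, hn, map_zero]
    obtain ⟨c, hc⟩ := hgen0 _ h1
    obtain ⟨n, hn⟩ := mem_gen.1 (hb j0)
    have h2 : ∀ n : ℕ, ((f - algebraMap K (End K T) (β j0)) ^ n) (b j0) = c ^ n • b j0 := by
      intro n
      induction n with
      | zero => rw [pow_zero, pow_zero, one_smul, Module.End.one_apply]
      | succ n ih => rw [pow_succ, Module.End.mul_apply, hc, map_smul, ih, smul_smul, pow_succ, mul_comm]
    rw [h2] at hn
    have h3 : c = 0 := by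
      have h4 := (smul_eq_zero.1 hn).resolve_right (b.ne_zero j0)
      exact eq_zero_of_pow_eq_zero h4
    rw [h3, zero_smul, LinearMap.sub_apply, Module.algebraMap_end_apply, sub_eq_zero] at hc
    exact hc
  · -- simple
    intro γ hγ x hx
    by_cases hx0 : x = 0
    · exact ⟨0, by rw [hx0, zero_smul]⟩
    · obtain ⟨j, rfl⟩ := hgen hx0 hx
      have h1 : j = j0 := hj0 j (hRE (x := u j) (y := u j0) hγ)
      rw [h1] at hx
      exact hgen0 x hx
  · -- relations of length four
    intro γ₂ γ₃ γ₁ h2 h3 h1 h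
    obtain ⟨j2, rfl⟩ := heig h2
    obtain ⟨j3, rfl⟩ := heig h3
    obtain ⟨j1, rfl⟩ := heig h1
    have h4 : vec H (u j0) + vec H (u j1) = vec H (u j2) + vec H (u j3) := by
      rw [← vec_mul, ← vec_mul]
      exact hRE h
    rcases hrel j1 j2 j3 h4 with h5 | h5 | h5
    · left
      rw [hj0 j2 h5]
      exact hrefl _
    · right; left
      rw [hj0 j3 h5]
      exact hrefl _
    · right; right
      have h6 : σ j1 = j0 := by
        refine hj0 _ ?_
        change vec H (u (σ j1)) = vec H (u j0)
        rw [hσv j1]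
        change -vec H (u j1) = vec H (u j0)
        have h7 : vec H (u j1) = -vec H (u j0) := h5
        rw [h7, neg_neg]
      have h7 := hσ j1
      rw [h6] at h7
      rw [h7]
      exact hrefl _
  · -- independence of `H`
    intro γ h1 n hn x hx h
    obtain ⟨j, rfl⟩ := heig h1
    have h2 : u j ^ n = x * u j0 ^ n := Units.ext (by
      rw [Units.val_mul, Units.val_pow_eq_pow_val, Units.val_pow_eq_pow_val]
      exact h)
    have h3 := congrArg (vec H) h2
    have hxv : vec H x = 0 := vec_of_mem (x := x) (n := 1) one_pos (by rw [pow_one]; exact hx)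
    rw [vec_mul, vec_pow, vec_pow, hxv, zero_add] at h3
    have h4 := smul_right_injective _ (Nat.cast_ne_zero.2 hn.ne' : (n : ℚ) ≠ 0) h3
    rw [hj0 j h4]
    exact hrefl _

end iso

end Pool.Agent.H60LR
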