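import Pool.Agent.H60LR.Iso

/-!
# A pair of isolated eigenvectors
-/

set_option autoImplicit false

namespace Pool.Agent.H60LR

open Module Finset

section iso2

variable {K : Type} [Field K] {T : Type} [AddCommGroup T] [Module K T]
  [CharZero K] [IsAlgClosed K] [FiniteDimensional K T]

/-- the properties of an isolated eigenvector -/
def Isol (f : End K T) (m : K) (H : Subgroup Kˣ) (a : K) (v : T) : Prop :=
  v ≠ 0 ∧ f v = a • v ∧
      (∀ β, RE β a → ∀ x ∈ f.maxGenEigenspace β, ∃ c : K, x = c • v) ∧
      (∀ β γ δ, EG f β → EG f γ → EG f δ → RE (a * δ) (β * γ) → RE β a ∨ RE γ a ∨ RE (a * δ) m) ∧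
      ∀ β, EG f β → ∀ n : ℕ, 0 < n → ∀ u ∈ H, β ^ n = u * a ^ n → RE β a

theorem isolated_pair {f : End K T} (hf : Function.Injective f) {B : T →ₗ[K] T →ₗ[K] K}
    (hnd : ∀ x, (∀ y, B x y = 0) → x = 0) {H : Subgroup Kˣ} {m : Kˣ} (hm : m ∈ H)
    (hB : ∀ x y, B (f x) (f y) = (m : K) * B x y) {r : ℕ} {z : Fin r → Kˣ}
    (hz : ∀ j, EG f (z j : K)) (hind : ∀ e : Fin r → ℤ, ∏ j, z j ^ e j ∈ H → e = 0)
    (hr : 3 * finrank K T < 8 * r) : ∃ (a a' : K) (v v' : T), Isol f m H a v ∧ Isol f m H a' v' ∧
      B v v' ≠ 0 := by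
  classical
  obtain ⟨J, _, b, β, hb⟩ := exists_basis f
  have hcard : finrank K T = Fintype.card J := Module.finrank_eq_card_basis b
  -- the eigenvalues are not zero
  have hβ0 : ∀ j, β j ≠ 0 := by
    intro j h0
    obtain ⟨n, hn⟩ := mem_gen.1 (hb j)
    rw [h0, map_zero, sub_zero] at hn
    have h2 : ∀ n : ℕ, Function.Injective (f ^ n) := by
      intro n
      induction n with
      | zero => exact fun x y h => h
      | succ n ih =>
        intro x y hxy
        rw [pow_succ, Module.End.mul_apply, Module.End.mul_apply] at hxy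
        exact hf (ih hxy)
    exact b.ne_zero j (h2 n (by rw [hn, map_zero]))
  let u : J → Kˣ := fun j => Units.mk0 (β j) (hβ0 j)
  have hgen : ∀ {γ : K} {x : T}, x ≠ 0 → x ∈ f.maxGenEigenspace γ → ∃ j, β j = γ := by
    intro γ x hx0 hx
    by_contra hcon
    push Not at hcon
    apply hx0
    rw [← b.sum_repr x]
    exact sum_eq_zero fun j _ => by rw [coord_zero hb hx (hcon j), zero_smul]
  have heig : ∀ {γ : K}, EG f γ → ∃ j, β j = γ := by
    rintro γ ⟨x, hx0, hx⟩
    refine hgen hx0 (mem_gen.2 ⟨1, ?_⟩)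
    rw [pow_one, LinearMap.sub_apply, Module.algebraMap_end_apply, hx, sub_self]
  -- the permutation
  obtain ⟨σ, hσ⟩ : ∃ σ : Equiv.Perm J, ∀ j, β (σ j) * β j = m := by
    let Q : Matrix J J K := Matrix.of fun i j => B (b i) (b j)
    have hdet : Q.det ≠ 0 := by
      intro h0
      obtain ⟨v, hv, hv0⟩ := Matrix.exists_vecMul_eq_zero_iff.2 h0
      apply hv
      have h4 : (∑ i, v i • b i) = 0 := by
        refine hnd _ fun y => ?_
        have h5 : ∀ j, B (∑ i, v i • b i) (b j) = 0 := by
          intro j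
          have h6 := congrFun hv0 j
          rw [Matrix.vecMul, dotProduct] at h6
          rw [map_sum, LinearMap.sum_apply]
          simp only [map_smul, LinearMap.smul_apply, smul_eq_mul]
          exact h6
        rw [← b.sum_repr y, map_sum]
        exact sum_eq_zero fun j _ => by rw [map_smul, h5, smul_zero]
      funext i
      exact Fintype.linearIndependent_iff.1 b.linearIndependent v h4 i
    rw [Matrix.det_apply] at hdet
    obtain ⟨σ, -, hσ⟩ := exists_ne_zero_of_sum_ne_zero hdet
    refine ⟨σ, fun j => ?_⟩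
    by_contra hcon
    apply hσ
    rw [prod_eq_zero (mem_univ j), smul_zero]
    obtain ⟨k, hk⟩ := mem_gen.1 (hb (σ j))
    obtain ⟨l, hl⟩ := mem_gen.1 (hb j)
    exact ortho hB hcon (k + l) k l _ _ le_rfl hk hl
  have hmv : vec H m = 0 := vec_of_mem (n := 1) one_pos (by rw [pow_one]; exact hm)
  have hσv : ∀ j, vec H (u (σ j)) = -vec H (u j) := by
    intro j
    have h1 : u (σ j) * u j = m := Units.ext (hσ j)
    have h2 := vec_mul H (u (σ j)) (u j)
    rw [h1, hmv] at h2
    exact eq_neg_of_add_eq_zero_left h2.symm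
  -- the rank
  have hrank : r ≤ finrank ℚ (Submodule.span ℚ (Set.range fun j => vec H (u j))) := by
    have h1 := finrank_span_eq_card (vec_independent hind)
    rw [Fintype.card_fin] at h1
    rw [← h1]
    have := FiniteDimensional.span_of_finite ℚ (Set.finite_range fun j => vec H (u j))
    refine Submodule.finrank_mono ?_
    rw [Submodule.span_le]
    rintro _ ⟨i, rfl⟩
    obtain ⟨j, hj⟩ := heig (hz i)
    have h2 : z i = u j := Units.ext hj.symm
    refine Submodule.subset_span ⟨j, ?_⟩
    change vec H (u j) = vec H (z i)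
    rw [h2]
  obtain ⟨j0, hj0, hrel⟩ := comb (fun j => vec H (u j)) σ hσv (by rw [← hcard]; omega)
  -- roots of unity
  have hRE : ∀ {x y : Kˣ}, RE (x : K) (y : K) → vec H x = vec H y := by
    rintro x y ⟨n, hn, h⟩
    have h1 : x ^ n = y ^ n := Units.ext (by rw [Units.val_pow_eq_pow_val, Units.val_pow_eq_pow_val, h])
    have h2 := vec_pow H x n
    rw [h1, vec_pow] at h2
    exact (smul_right_injective _ (Nat.cast_ne_zero.2 hn.ne' : (n : ℚ) ≠ 0) h2).symm
  have hrefl : ∀ x : K, RE x x := fun x => ⟨1, one_pos, rfl⟩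
  have main : ∀ j0, (∀ j, vec H (u j) = vec H (u j0) → j = j0) →
      (∀ j1 j2 j3, vec H (u j0) + vec H (u j1) = vec H (u j2) + vec H (u j3) →
        vec H (u j2) = vec H (u j0) ∨ vec H (u j3) = vec H (u j0) ∨ vec H (u j1) = -vec H (u j0)) →
      Isol f m H (β j0) (b j0) := by
    intro j0 hj0 hrel
    have hgen0 : ∀ x ∈ f.maxGenEigenspace (β j0), ∃ c : K, x = c • b j0 := by
      intro x hx
      refine ⟨b.repr x j0, ?_⟩
      conv_lhs => rw [← b.sum_repr x]
      refine sum_eq_single_of_mem j0 (mem_univ _) fun j _ hj => ?_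
      rw [coord_zero hb hx, zero_smul]
      intro h
      exact hj (hj0 j (by
        have : u j = u j0 := Units.ext h
        change vec H (u j) = vec H (u j0)
        rw [this]))
    refine ⟨b.ne_zero j0, ?_, ?_, ?_, ?_⟩
    · -- an eigenvector
      have h1 : (f - algebraMap K (End K T) (β j0)) (b j0) ∈ f.maxGenEigenspace (β j0) := by
        obtain ⟨n, hn⟩ := mem_gen.1 (hb j0)
        refine mem_gen.2 ⟨n, ?_⟩
        rw [← Module.End.mul_apply, ← pow_succ, pow_succ', Module.End.mul_apply, hn, map_zero]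
      obtain ⟨c, hc⟩ := hgen0 _ h1
      obtain ⟨n, hn⟩ := mem_gen.1 (hb j0)
      have h2 : ∀ n : ℕ, ((f - algebraMap K (End K T) (β j0)) ^ n) (b j0) = c ^ n • b j0 := by
        intro n
        induction n with
        | zero => rw [pow_zero, pow_zero, one_smul, Module.End.one_apply]
        | succ n ih => rw [pow_succ, Module.End.mul_apply, hc, map_smul, ih, smul_smul, pow_succ, mul_comm]
      rw [h2] at hn
      have h3 : c = 0 := by
        have h4 := (smul_eq_zero.1 hn).resolve_right (b.ne_zero j0)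
        exact eq_zero_of_pow_eq_zero h4
      rw [h3, zero_smul, LinearMap.sub_apply, Module.algebraMap_end_apply, sub_eq_zero] at hc
      exact hc
    · -- simple
      intro γ hγ x hx
      by_cases hx0 : x = 0
      · exact ⟨0, by rw [hx0, zero_smul]⟩
      · obtain ⟨j, rfl⟩ := hgen hx0 hx
        have h1 : j = j0 := hj0 j (hRE (x := u j) (y := u j0) hγ)
        rw [h1] at hx
        exact hgen0 x hx
    · -- relations of length four
      intro γ₂ γ₃ γ₁ h2 h3 h1 h
      obtain ⟨j2, rfl⟩ := heig h2
      obtain ⟨j3, rfl⟩ := heig h3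
      obtain ⟨j1, rfl⟩ := heig h1
      have h4 : vec H (u j0) + vec H (u j1) = vec H (u j2) + vec H (u j3) := by
        rw [← vec_mul, ← vec_mul]
        exact hRE h
      rcases hrel j1 j2 j3 h4 with h5 | h5 | h5
      · left
        rw [hj0 j2 h5]
        exact hrefl _
      · right; left
        rw [hj0 j3 h5]
        exact hrefl _
      · right; right
        have h6 : σ j1 = j0 := by
          refine hj0 _ ?_
          change vec H (u (σ j1)) = vec H (u j0)
          rw [hσv j1]
          change -vec H (u j1) = vec H (u j0)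
          have h7 : vec H (u j1) = -vec H (u j0) := h5
          rw [h7, neg_neg]
        have h7 := hσ j1
        rw [h6] at h7
        rw [h7]
        exact hrefl _
    · -- independence of `H`
      intro γ h1 n hn x hx h
      obtain ⟨j, rfl⟩ := heig h1
      have h2 : u j ^ n = x * u j0 ^ n := Units.ext (by
        rw [Units.val_mul, Units.val_pow_eq_pow_val, Units.val_pow_eq_pow_val]
        exact h)
      have h3 := congrArg (vec H) h2
      have hxv : vec H x = 0 := vec_of_mem (x := x) (n := 1) one_pos (by rw [pow_one]; exact hx)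
      rw [vec_mul, vec_pow, vec_pow, hxv, zero_add] at h3
      have h4 := smul_right_injective _ (Nat.cast_ne_zero.2 hn.ne' : (n : ℚ) ≠ 0) h3
      rw [hj0 j h4]
      exact hrefl _

  have hj1 : ∀ j, vec H (u j) = vec H (u (σ j0)) → j = σ j0 := by
    intro j hj
    have h1 : vec H (u (σ j)) = vec H (u j0) := by rw [hσv j, hj, hσv j0, neg_neg]
    have h2 : vec H (u (σ (σ j0))) = vec H (u j0) := by rw [hσv, hσv, neg_neg]
    exact σ.injective ((hj0 _ h1).trans (hj0 _ h2).symm)
  refine ⟨β j0, β (σ j0), b j0, b (σ j0), main j0 hj0 hrel, main (σ j0) hj1 ?_, ?_⟩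
  · intro j1 j2 j3 h
    rcases hrel (σ j1) (σ j2) (σ j3) (by
      change vec H (u j0) + vec H (u (σ j1)) = vec H (u (σ j2)) + vec H (u (σ j3))
      rw [hσv j1, hσv j2, hσv j3]
      rw [hσv j0] at h
      have h5 := congrArg Neg.neg h
      rw [neg_add, neg_neg, neg_add] at h5
      exact h5) with h5 | h5 | h5
    · left
      change vec H (u (σ j2)) = vec H (u j0) at h5
      rw [hσv j2] at h5
      rw [hσv j0, ← h5, neg_neg]
    · right; left
      change vec H (u (σ j3)) = vec H (u j0) at h5
      rw [hσv j3] at h5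
      rw [hσv j0, ← h5, neg_neg]
    · right; right
      change vec H (u (σ j1)) = -vec H (u j0) at h5
      rw [hσv j1] at h5
      rw [hσv j0, neg_neg]
      exact neg_injective h5
  · intro h0
    apply b.ne_zero j0
    refine hnd _ fun y => ?_
    have h5 : ∀ j, B (b j0) (b j) = 0 := by
      intro j
      by_cases hj : j = σ j0
      · rw [hj]
        exact h0
      · obtain ⟨k, hk⟩ := mem_gen.1 (hb j0)
        obtain ⟨l, hl⟩ := mem_gen.1 (hb j)
        refine ortho hB (fun hcon => hj (hj1 j ?_)) (k + l) k l _ _ le_rfl hk hl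
        have h6 : u j0 * u j = m := Units.ext hcon
        have h7 := vec_mul H (u j0) (u j)
        rw [h6, hmv] at h7
        rw [hσv j0]
        exact eq_neg_of_add_eq_zero_right h7.symm
    rw [← b.sum_repr y, map_sum]
    exact sum_eq_zero fun j _ => by rw [map_smul, h5, smul_zero]

end iso2

end Pool.Agent.H60LR
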