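import Pool.Agent.Y130.MM.Final
import Pool.Agent.H60LR.Iso

/-!
# Motives with many independent Frobenius eigenvalues
-/

set_option autoImplicit false

namespace Pool.Agent.H60LR

open Module Pool.Agent.Y130 Pool.Agent.Y130.MT Pool.Agent.Y130.MM

variable {K : Type} [Field K] [CharZero K] [IsAlgClosed K] {T : Type} [AddCommGroup T] [Module K T]
  [FiniteDimensional K T] {V : Type} [AddCommGroup V] [Module K V] {Γ G : Type} [Group Γ] [Group G]
  {ι : Γ →* G} {q : G →* Kˣ} {w : ℕ} {τ : Representation K G T} {ρ : Representation K G V}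
  {B : T →ₗ[K] T →ₗ[K] K} {H : Γ → Subgroup Kˣ}

theorem isolatedMotive (hsy : ∀ x y, B x y = (-1) ^ w * B y x) (hnd : ∀ x, (∀ y, B x y = 0) → x = 0)
    (heq : ∀ g x y, B (τ g x) (τ g y) = (q g : K) ^ w * B x y)
    (hirr : ∀ Δ : Subgroup Γ, Δ.FiniteIndex → ∀ U : Submodule K T, (∀ s ∈ Δ, ∀ x ∈ U, τ (ι s) x ∈ U) →
      U = ⊥ ∨ U = ⊤) (hH : ∀ s, q (ι s) ∈ H s) (s : Γ) {r : ℕ} {z : Fin r → Kˣ}
    (hz : ∀ j, IsEig (τ (ι s)) (z j : K)) (hind : ∀ e : Fin r → ℤ, ∏ j, z j ^ e j ∈ H s → e = 0)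
    (hr : 3 * finrank K T < 8 * r) :
    IsolatedMotive ι q w τ B (fun _ : Unit => (⊤ : Submodule K T)) id ⊤ H where
  symm := hsy
  nondeg := hnd
  equiv := heq
  sup := iSup_const
  ne := fun _ h0 => by
    have hr0 : 0 < r := by omega
    obtain ⟨x, hx0, -⟩ := hz ⟨0, hr0⟩
    apply hx0
    rw [← Submodule.mem_bot K, ← h0]
    exact Submodule.mem_top
  star_star := fun _ => rfl
  orth := fun c d hd => absurd rfl hd
  index := inferInstance
  stable := fun _ _ _ _ _ => Submodule.mem_top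
  irreducible := fun _ Δ hΔ P _ hP => hirr Δ hΔ P hP
  tate := hH
  isolated := fun _ => by
    right
    have hinj : Function.Injective (τ (ι s)) := by
      intro x y hxy
      have h1 := congrArg (τ (ι s)⁻¹) hxy
      rw [← Module.End.mul_apply, ← Module.End.mul_apply, ← map_mul, inv_mul_cancel, map_one] at h1
      exact h1
    have hm : q (ι s) ^ w ∈ H s := Subgroup.pow_mem _ (hH s) w
    obtain ⟨a, v, h1, h2, h3, h4, h5⟩ := isolated (f := τ (ι s)) hinj hnd hm (fun x y => by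
      rw [heq, Units.val_pow_eq_pow_val]) hz hind hr
    refine ⟨s, a, v, Submodule.mem_top, h1, h2, h3, ?_, h5⟩
    intro β γ δ e1 e2 e3 e4
    have h6 := h4 β γ δ e1 e2 e3 e4
    rw [Units.val_pow_eq_pow_val] at h6
    exact h6
  det := fun c hc => absurd rfl hc

variable {E : Type} [AddCommGroup E] [Module K E] [FiniteDimensional K E] {σ : Representation K G E}

omit [CharZero K] [IsAlgClosed K] [FiniteDimensional K E] in
/-- no extension of the base field -/
theorem same_of_motivated (hι : ∀ Δ : Subgroup G, Δ.FiniteIndex → ∀ g : G, ∃ s : Γ, ∃ d ∈ Δ, g = ι s * d)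
    (h : TateMotivated ι q σ) (j : ℤ) (x : E) (hx : ∀ s, σ (ι s) x = ((q (ι s) ^ j : Kˣ) : K) • x)
    (g : G) : σ g x = ((q g ^ j : Kˣ) : K) • x := by
  obtain ⟨Δ, hΔ, h1⟩ := h j x ⟨⊤, inferInstance, fun s _ => hx s⟩
  obtain ⟨s, d, hd, rfl⟩ := hι Δ hΔ g
  rw [map_mul, Module.End.mul_apply, h1 d hd, map_smul, hx s, smul_smul, map_mul, mul_zpow,
    Units.val_mul, mul_comm]

theorem motivated_trivial {C : Type} [Finite C] {U : C → Submodule K T} {star : C → C} {G₀ : Subgroup G}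
    (hV : SummandOfCopies τ ρ) (hM : IsolatedMotive ι q w τ B U star G₀ H)
    (hq : ∀ j : ℤ, j ≠ 0 → ∀ Δ : Subgroup Γ, Δ.FiniteIndex → ∃ s ∈ Δ, q (ι s) ^ j ≠ 1) (n : ℕ) :
    TateMotivated ι q (homRep n ρ (Representation.trivial K G K)) := by
  refine main_V hV hM (fun F β hβ => ?_) (fun j e he => ?_) n
  · obtain ⟨x, hx0, hx⟩ := hβ
    refine ⟨1, Subgroup.one_mem _, ?_⟩
    have h1 : x = β * x := hx
    rw [Units.val_one]
    exact mul_right_cancel₀ hx0 (by rw [← h1, one_mul])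
  · obtain ⟨Δ, hΔ, h⟩ := he
    by_cases hj : j = 0
    · refine ⟨⊤, inferInstance, fun g _ => ?_⟩
      rw [hj, zpow_zero, Units.val_one, one_smul]
      rfl
    · obtain ⟨s, hs, hs1⟩ := hq j hj Δ hΔ
      have h1 : e = ((q (ι s) ^ j : Kˣ) : K) * e := h s hs
      have h2 : e = 0 := by
        by_contra h0
        apply hs1
        apply Units.ext
        rw [Units.val_one]
        exact mul_right_cancel₀ h0 (by rw [← h1, one_mul])
      refine ⟨⊤, inferInstance, fun g _ => ?_⟩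
      rw [h2, map_zero, smul_zero]

end Pool.Agent.H60LR
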