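import Pool.Agent.H60LR.Iso2
import Pool.Agent.H60LR.Mot

/-!
# The sum of a representation and its dual
-/

set_option autoImplicit false

namespace Pool.Agent.H60LR

open Module Pool.Agent.Y130 Pool.Agent.Y130.MT Pool.Agent.Y130.MM

variable {K : Type} [Field K] {T : Type} [AddCommGroup T] [Module K T] {Γ G : Type} [Group Γ] [Group G]

/-- The representation on `T ⊕ T^∨(-w)`: the sum of `τ` and of the dual of `τ`, twisted by `q ^ w`. -/
def withDual (q : G →* Kˣ) (w : ℕ) (τ : Representation K G T) :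
    Representation K G (T × Dual K T) where
  toFun g := LinearMap.prodMap (τ g) ((q g : K) ^ w • (τ g⁻¹).dualMap)
  map_one' := by
    refine LinearMap.ext fun x => Prod.ext ?_ (LinearMap.ext fun y => ?_)
    · simp
    · simp
  map_mul' g h := by
    refine LinearMap.ext fun x => Prod.ext ?_ (LinearMap.ext fun y => ?_)
    · simp
    · simp only [mul_inv_rev, map_mul, Units.val_mul, mul_pow, LinearMap.prodMap_apply, LinearMap.smul_apply,
        LinearMap.dualMap_apply, Module.End.mul_apply, smul_eq_mul]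
      ring

theorem withDual_fst (q : G →* Kˣ) (w : ℕ) (τ : Representation K G T) (g : G) (x : T × Dual K T) :
    (withDual q w τ g x).1 = τ g x.1 := rfl

theorem withDual_snd (q : G →* Kˣ) (w : ℕ) (τ : Representation K G T) (g : G) (x : T × Dual K T) (y : T) :
    (withDual q w τ g x).2 y = (q g : K) ^ w * x.2 (τ g⁻¹ y) := rfl

/-- the form on `T ⊕ T^∨` -/
def pairForm (w : ℕ) : T × Dual K T →ₗ[K] T × Dual K T →ₗ[K] K :=
  LinearMap.mk₂ K (fun x y => y.2 x.1 + (-1) ^ w * x.2 y.1)
    (fun x x' y => by simp only [Prod.fst_add, Prod.snd_add, map_add, LinearMap.add_apply]; ring)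
    (fun c x y => by simp only [Prod.smul_fst, Prod.smul_snd, map_smul, LinearMap.smul_apply, smul_eq_mul]; ring)
    (fun x y y' => by simp only [Prod.fst_add, Prod.snd_add, map_add, LinearMap.add_apply]; ring)
    (fun c x y => by simp only [Prod.smul_fst, Prod.smul_snd, map_smul, LinearMap.smul_apply, smul_eq_mul]; ring)

theorem pairForm_apply (w : ℕ) (x y : T × Dual K T) :
    pairForm w x y = y.2 x.1 + (-1) ^ w * x.2 y.1 := rfl

/-- the two blocks -/
def blk : Bool → Submodule K (T × Dual K T)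
  | true => LinearMap.ker (LinearMap.snd K T (Dual K T))
  | false => LinearMap.ker (LinearMap.fst K T (Dual K T))

theorem mem_true {x : T × Dual K T} : x ∈ blk (K := K) (T := T) true ↔ x.2 = 0 := Iff.rfl

theorem mem_false {x : T × Dual K T} : x ∈ blk (K := K) (T := T) false ↔ x.1 = 0 := Iff.rfl

theorem act_inv (τ : Representation K G T) (g : G) (x : T) : τ g⁻¹ (τ g x) = x := by
  rw [← Module.End.mul_apply, ← map_mul, inv_mul_cancel, map_one, Module.End.one_apply]

theorem act_inv' (τ : Representation K G T) (g : G) (x : T) : τ g (τ g⁻¹ x) = x := by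
  rw [← Module.End.mul_apply, ← map_mul, mul_inv_cancel, map_one, Module.End.one_apply]

theorem neg_one_sq_pow (w : ℕ) : ((-1 : K) ^ w) * ((-1) ^ w) = 1 := by
  rw [← mul_pow]
  simp

theorem pair_symm (w : ℕ) (x y : T × Dual K T) : pairForm w x y = (-1) ^ w * pairForm w y x := by
  rw [pairForm_apply, pairForm_apply]
  have h := neg_one_sq_pow (K := K) w
  linear_combination (-(y.2 x.1)) * h

theorem pair_nondeg (w : ℕ) (x : T × Dual K T) (h : ∀ y, pairForm w x y = 0) : x = 0 := by
  have h1 : x.1 = 0 := by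
    rw [← Module.forall_dual_apply_eq_zero_iff K]
    intro φ
    have h2 := h (0, φ)
    rw [pairForm_apply] at h2
    simpa using h2
  have h2 : x.2 = 0 := by
    ext y
    have h3 := h (y, 0)
    rw [pairForm_apply] at h3
    simpa using h3
  exact Prod.ext h1 h2

theorem pair_equiv (q : G →* Kˣ) (w : ℕ) (τ : Representation K G T) (g : G) (x y : T × Dual K T) :
    pairForm w (withDual q w τ g x) (withDual q w τ g y) = (q g : K) ^ w * pairForm w x y := by
  rw [pairForm_apply, pairForm_apply, withDual_snd, withDual_snd, withDual_fst, withDual_fst, act_inv,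
    act_inv]
  ring

theorem pair_orth (w : ℕ) (c d : Bool) (h : d ≠ !c) (x : T × Dual K T) (hx : x ∈ blk (K := K) (T := T) c)
    (y : T × Dual K T) (hy : y ∈ blk (K := K) (T := T) d) : pairForm w x y = 0 := by
  rw [pairForm_apply]
  cases c <;> cases d
  · rw [mem_false] at hx hy
    rw [hx, hy, map_zero, map_zero, mul_zero, add_zero]
  · exact absurd rfl h
  · exact absurd rfl h
  · rw [mem_true] at hx hy
    rw [hx, hy, LinearMap.zero_apply, LinearMap.zero_apply, mul_zero, add_zero]

theorem blk_stable (q : G →* Kˣ) (w : ℕ) (τ : Representation K G T) (g : G) (c : Bool) (x : T × Dual K T)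
    (hx : x ∈ blk (K := K) (T := T) c) : withDual q w τ g x ∈ blk (K := K) (T := T) c := by
  cases c
  · rw [mem_false] at hx ⊢
    rw [withDual_fst, hx, map_zero]
  · rw [mem_true] at hx ⊢
    ext y
    rw [withDual_snd, hx, LinearMap.zero_apply, mul_zero, LinearMap.zero_apply]

theorem blk_sup : ⨆ c, blk (K := K) (T := T) c = ⊤ := by
  rw [eq_top_iff]
  intro x _
  have h1 : x = (x.1, 0) + (0, x.2) := by simp
  rw [h1]
  exact Submodule.add_mem _ (Submodule.mem_iSup_of_mem true (mem_true.2 rfl))
    (Submodule.mem_iSup_of_mem false (mem_false.2 rfl))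

theorem blk_irr [FiniteDimensional K T] {ι : Γ →* G} (q : G →* Kˣ) (w : ℕ) {τ : Representation K G T}
    (hirr : ∀ Δ : Subgroup Γ, Δ.FiniteIndex → ∀ U : Submodule K T, (∀ s ∈ Δ, ∀ x ∈ U, τ (ι s) x ∈ U) →
      U = ⊥ ∨ U = ⊤) (c : Bool) (Δ : Subgroup Γ) (hΔ : Δ.FiniteIndex) (P : Submodule K (T × Dual K T))
    (hP : P ≤ blk c) (hst : ∀ s ∈ Δ, ∀ x ∈ P, withDual q w τ (ι s) x ∈ P) : P = ⊥ ∨ P = blk c := by
  cases c
  · let P₂ : Submodule K (Dual K T) := P.comap (LinearMap.inr K T (Dual K T))
    have hmem : ∀ φ : Dual K T, φ ∈ P₂ ↔ ((0, φ) : T × Dual K T) ∈ P := fun φ => Iff.rfl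
    have hPf : ∀ x ∈ P, x = (0, x.2) := fun x hx => Prod.ext (mem_false.1 (hP hx)) rfl
    have h1 := hirr Δ hΔ P₂.dualCoannihilator (fun s hs x hx => by
      rw [Submodule.mem_dualCoannihilator] at hx ⊢
      intro φ hφ
      have h2 := hst s⁻¹ (Δ.inv_mem hs) _ ((hmem φ).1 hφ)
      have h3 : withDual q w τ (ι s⁻¹) (0, φ) = (0, (withDual q w τ (ι s⁻¹) (0, φ)).2) := hPf _ h2
      rw [h3, ← hmem] at h2
      have h4 := hx _ h2
      rw [withDual_snd, map_inv, inv_inv] at h4
      refine (mul_eq_zero.1 h4).resolve_left (pow_ne_zero _ (Units.ne_zero _)))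
    have h2 : P₂.dualCoannihilator.dualAnnihilator = P₂ := Subspace.dualCoannihilator_dualAnnihilator_eq
    rcases h1 with h1 | h1
    · right
      rw [h1, Submodule.dualAnnihilator_bot] at h2
      refine le_antisymm hP fun x hx => ?_
      rw [mem_false] at hx
      have h3 : x.2 ∈ P₂ := by rw [← h2]; exact Submodule.mem_top
      rw [hmem] at h3
      have h4 : x = (0, x.2) := Prod.ext hx rfl
      rw [h4]
      exact h3
    · left
      rw [h1, Submodule.dualAnnihilator_top] at h2
      rw [eq_bot_iff]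
      intro x hx
      have h3 : x.2 ∈ P₂ := by rw [hmem, ← hPf x hx]; exact hx
      rw [← h2, Submodule.mem_bot] at h3
      rw [Submodule.mem_bot, hPf x hx, h3]
      rfl
  · let P₁ : Submodule K T := P.comap (LinearMap.inl K T (Dual K T))
    have hmem : ∀ y : T, y ∈ P₁ ↔ ((y, 0) : T × Dual K T) ∈ P := fun y => Iff.rfl
    have hPf : ∀ x ∈ P, x = (x.1, 0) := fun x hx => Prod.ext rfl (mem_true.1 (hP hx))
    have h1 := hirr Δ hΔ P₁ (fun s hs x hx => by
      have h2 := hst s hs _ ((hmem x).1 hx)
      rw [hPf _ h2, withDual_fst] at h2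
      exact (hmem _).2 h2)
    rcases h1 with h1 | h1
    · left
      rw [eq_bot_iff]
      intro x hx
      have h3 : x.1 ∈ P₁ := by rw [hmem, ← hPf x hx]; exact hx
      rw [h1, Submodule.mem_bot] at h3
      rw [Submodule.mem_bot, hPf x hx, h3]
      rfl
    · right
      refine le_antisymm hP fun x hx => ?_
      rw [mem_true] at hx
      have h3 : x.1 ∈ P₁ := by rw [h1]; exact Submodule.mem_top
      rw [hmem] at h3
      have h4 : x = (x.1, 0) := Prod.ext rfl hx
      rw [h4]
      exact h3

end Pool.Agent.H60LR
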