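import Pool.Agent.H60LR.Pair

/-!
# Isolated eigenvectors and determinants in the sum of a representation and its dual
-/

set_option autoImplicit false

namespace Pool.Agent.H60LR

open Module Pool.Agent.Y130 Pool.Agent.Y130.MT Pool.Agent.Y130.MM

variable {K : Type} [Field K] {T : Type} [AddCommGroup T] [Module K T] {Γ G : Type} [Group Γ] [Group G]

theorem in_blk {q : G →* Kˣ} {w : ℕ} {τ : Representation K G T} {g : G} {m : K} {H : Subgroup Kˣ} {a : K}
    {v : T × Dual K T} (h : Isol (withDual q w τ g) m H a v) :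
    v ∈ blk (K := K) (T := T) true ∨ v ∈ blk (K := K) (T := T) false := by
  obtain ⟨-, h2, h3, -, -⟩ := h
  obtain ⟨c, hc⟩ := h3 a ⟨1, one_pos, rfl⟩ (v.1, 0) (mem_gen.2 ⟨1, by
    rw [pow_one, LinearMap.sub_apply, Module.algebraMap_end_apply, sub_eq_zero]
    refine Prod.ext ?_ (LinearMap.ext fun y => ?_)
    · rw [withDual_fst]
      exact congrArg Prod.fst h2
    · rw [withDual_snd]
      simp⟩)
  by_cases h0 : c = 0
  · right
    rw [mem_false]
    rw [h0, zero_smul] at hc
    exact congrArg Prod.fst hc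
  · left
    rw [mem_true]
    have h4 : (0 : Dual K T) = c • v.2 := congrArg Prod.snd hc
    exact (smul_eq_zero.1 h4.symm).resolve_left h0

/-- `T` is the first block -/
def eTrue : T ≃ₗ[K] blk (K := K) (T := T) true where
  toFun y := ⟨(y, 0), rfl⟩
  invFun x := x.1.1
  map_add' x y := Subtype.ext (Prod.ext rfl (add_zero _).symm)
  map_smul' c x := Subtype.ext (Prod.ext rfl (smul_zero _).symm)
  left_inv x := rfl
  right_inv x := Subtype.ext (Prod.ext rfl (mem_true.1 x.2).symm)

/-- the dual is the second block -/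
def eFalse : Dual K T ≃ₗ[K] blk (K := K) (T := T) false where
  toFun y := ⟨(0, y), rfl⟩
  invFun x := x.1.2
  map_add' x y := Subtype.ext (Prod.ext (add_zero _).symm rfl)
  map_smul' c x := Subtype.ext (Prod.ext (smul_zero _).symm rfl)
  left_inv x := rfl
  right_inv x := Subtype.ext (Prod.ext (mem_false.1 x.2).symm rfl)

theorem det_true (q : G →* Kˣ) (w : ℕ) (τ : Representation K G T) (g : G) :
    LinearMap.det (M := ↥(blk (K := K) (T := T) true)) ((withDual q w τ g).restrict (blk_stable q w τ g true)) = LinearMap.det (τ g) := by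
  rw [← LinearMap.det_conj (N := ↥(blk (K := K) (T := T) true)) (τ g) (eTrue (K := K) (T := T))]
  congr 1
  refine LinearMap.ext fun x => Subtype.ext (Prod.ext rfl ?_)
  exact mem_true.1 ((withDual q w τ g).restrict (blk_stable q w τ g true) x).2

theorem det_false [FiniteDimensional K T] (q : G →* Kˣ) (w : ℕ) (τ : Representation K G T) (g : G) :
    LinearMap.det (M := ↥(blk (K := K) (T := T) false)) ((withDual q w τ g).restrict (blk_stable q w τ g false)) =
      ((q g : K) ^ w) ^ finrank K (Dual K T) * LinearMap.det (τ g⁻¹) := by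
  rw [← LinearMap.det_dualMap (τ g⁻¹), ← LinearMap.det_smul,
    ← LinearMap.det_conj (N := ↥(blk (K := K) (T := T) false)) ((q g : K) ^ w • (τ g⁻¹).dualMap)
      (eFalse (K := K) (T := T))]
  congr 1
  refine LinearMap.ext fun x => Subtype.ext (Prod.ext ?_ rfl)
  exact mem_false.1 ((withDual q w τ g).restrict (blk_stable q w τ g false) x).2

theorem pair_det [FiniteDimensional K T] {ι : Γ →* G} (q : G →* Kˣ) (w : ℕ) (τ : Representation K G T)
    {H : Γ → Subgroup Kˣ} (hH : ∀ s, q (ι s) ∈ H s) (s : Γ)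
    (hdet : ∀ n : ℕ, 0 < n → ∀ u ∈ H s, (u : K) ≠ LinearMap.det (τ (ι s)) ^ n) (c : Bool) :
    IndependentDet (withDual q w τ (ι s)) (blk (K := K) (T := T)) c (!c) (H s) := by
  refine ⟨fun d => blk_stable q w τ (ι s) d, fun n hn u hu => ?_⟩
  have hempty : {u : Kˣ | ∃ d : Bool, d ≠ c ∧ d ≠ !c ∧ (u : K) =
      LinearMap.det (M := ↥(blk (K := K) (T := T) d)) ((withDual q w τ (ι s)).restrict (blk_stable q w τ (ι s) d))} = ∅ := by
    rw [Set.eq_empty_iff_forall_notMem]
    rintro x ⟨d, h1, h2, -⟩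
    cases d <;> cases c <;> simp_all
  rw [hempty, Subgroup.closure_empty, sup_bot_eq] at hu
  cases c
  · rw [det_false]
    intro h
    have h1 : LinearMap.det (τ (ι s)) * LinearMap.det (τ (ι s)⁻¹) = 1 := by
      rw [← map_mul, ← map_mul, mul_inv_cancel, map_one, map_one]
    refine hdet n hn ((q (ι s) ^ w) ^ finrank K (Dual K T) ^ 1 * 1 * ((q (ι s) ^ w) ^ finrank K (Dual K T)) ^ (n - 1) * u⁻¹) ?_ ?_
    · refine Subgroup.mul_mem _ (Subgroup.mul_mem _ (Subgroup.mul_mem _ ?_ (Subgroup.one_mem _)) ?_)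
        (Subgroup.inv_mem _ hu)
      · exact Subgroup.pow_mem _ (Subgroup.pow_mem _ (hH s) _) _
      · exact Subgroup.pow_mem _ (Subgroup.pow_mem _ (Subgroup.pow_mem _ (hH s) _) _) _
    · obtain ⟨k, rfl⟩ : ∃ k, n = k + 1 := ⟨n - 1, by omega⟩
      have h2 : (u : K) ≠ 0 := Units.ne_zero u
      rw [Units.val_mul, Units.val_inv_eq_inv_val, ← div_eq_mul_inv, div_eq_iff h2, h]
      simp only [Units.val_mul, Units.val_pow_eq_pow_val, Units.val_one, pow_one, mul_one, Nat.add_sub_cancel]
      have h3 : LinearMap.det (τ (ι s)) ^ (k + 1) * LinearMap.det (τ (ι s)⁻¹) ^ (k + 1) = 1 := by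
        rw [← mul_pow, h1, one_pow]
      rw [mul_pow]
      linear_combination (-(((q (ι s) : K) ^ w) ^ finrank K (Dual K T)) ^ (k + 1)) * h3
  · rw [det_true]
    exact hdet n hn u hu

variable [CharZero K] [IsAlgClosed K] [FiniteDimensional K T] {ι : Γ →* G} {q : G →* Kˣ} {w : ℕ}
  {τ : Representation K G T} {H : Γ → Subgroup Kˣ}

theorem isolatedMotive_pair
    (hirr : ∀ Δ : Subgroup Γ, Δ.FiniteIndex → ∀ U : Submodule K T, (∀ s ∈ Δ, ∀ x ∈ U, τ (ι s) x ∈ U) →
      U = ⊥ ∨ U = ⊤) (hH : ∀ s, q (ι s) ∈ H s) (s : Γ) {r : ℕ} {z : Fin r → Kˣ}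
    (hz : ∀ j, IsEig (τ (ι s)) (z j : K)) (hind : ∀ e : Fin r → ℤ, ∏ j, z j ^ e j ∈ H s → e = 0)
    (hr : 3 * finrank K T < 4 * r) (s' : Γ)
    (hdet : ∀ n : ℕ, 0 < n → ∀ u ∈ H s', (u : K) ≠ LinearMap.det (τ (ι s')) ^ n) :
    IsolatedMotive ι q w (withDual q w τ) (pairForm w) (blk (K := K) (T := T)) (fun c => !c) ⊤ H where
  symm := pair_symm w
  nondeg := pair_nondeg w
  equiv := pair_equiv q w τ
  sup := blk_sup
  ne := fun c h0 => by
    have hr0 : 0 < r := by omega
    obtain ⟨x, hx0, -⟩ := hz ⟨0, hr0⟩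
    cases c
    · apply hx0
      rw [← Module.forall_dual_apply_eq_zero_iff K]
      intro φ
      have h1 : ((0, φ) : T × Dual K T) ∈ blk (K := K) (T := T) false := mem_false.2 rfl
      rw [h0, Submodule.mem_bot] at h1
      have h2 : φ = 0 := congrArg Prod.snd h1
      rw [h2, LinearMap.zero_apply]
    · apply hx0
      have h1 : ((x, 0) : T × Dual K T) ∈ blk (K := K) (T := T) true := mem_true.2 rfl
      rw [h0, Submodule.mem_bot] at h1
      exact congrArg Prod.fst h1
  star_star := fun c => Bool.not_not c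
  orth := pair_orth w
  index := inferInstance
  stable := fun g _ c x hx => blk_stable q w τ g c x hx
  irreducible := fun c Δ hΔ P hP hst => blk_irr q w hirr c Δ hΔ P hP hst
  tate := hH
  isolated := fun c => by
    right
    have hinj : Function.Injective (withDual q w τ (ι s)) := by
      intro x y hxy
      have h1 := congrArg (withDual q w τ (ι s)⁻¹) hxy
      rw [← Module.End.mul_apply, ← Module.End.mul_apply, ← map_mul, inv_mul_cancel, map_one] at h1
      exact h1
    have hm : q (ι s) ^ w ∈ H s := Subgroup.pow_mem _ (hH s) w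
    obtain ⟨a, a', v, v', h1, h2, h3⟩ := isolated_pair (f := withDual q w τ (ι s)) hinj
      (pair_nondeg w) hm (fun x y => by rw [pair_equiv, Units.val_pow_eq_pow_val])
      (z := z) (fun j => by
        obtain ⟨x, hx0, hx⟩ := hz j
        refine ⟨(x, 0), fun h => hx0 (congrArg Prod.fst h), Prod.ext ?_ (LinearMap.ext fun y => ?_)⟩
        · rw [withDual_fst]
          exact hx
        · rw [withDual_snd]
          simp) hind (by
        rw [finrank_prod, Subspace.dual_finrank_eq]
        omega)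
    have key : ∀ {a : K} {v : T × Dual K T}, Isol (withDual q w τ (ι s)) ((q (ι s) ^ w : Kˣ) : K) (H s) a v →
        IsolatedEigenvector (withDual q w τ (ι s)) ((q (ι s) : K) ^ w) (H s) a v := by
      rintro a v ⟨k1, k2, k3, k4, k5⟩
      refine ⟨k1, k2, k3, ?_, k5⟩
      intro β γ δ e1 e2 e3 e4
      have h6 := k4 β γ δ e1 e2 e3 e4
      rw [Units.val_pow_eq_pow_val] at h6
      exact h6
    rcases in_blk h1 with b1 | b1 <;> rcases in_blk h2 with b2 | b2
    · exact absurd (pair_orth w true true (by decide) _ b1 _ b2) h3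
    · cases c
      · exact ⟨s, a', v', b2, key h2⟩
      · exact ⟨s, a, v, b1, key h1⟩
    · cases c
      · exact ⟨s, a, v, b1, key h1⟩
      · exact ⟨s, a', v', b2, key h2⟩
    · exact absurd (pair_orth w false false (by decide) _ b1 _ b2) h3
  det := fun c _ => ⟨s', pair_det q w τ hH s' hdet c⟩

end Pool.Agent.H60LR
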